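import Pool.Agent.ZRT.StmtsA

/-!
Row YDI of squad ZRT (Dirichlet by pigeonhole on 256 squares).
-/

noncomputable section

namespace Pool.Agent.ZRT.H46

theorem ydi_one (n : ℕ) (a : ℤ) (k1 k2 : ℕ) (hk : k1 < k2) (hk2 : k2 < n)
    (ha : IsCoprime a (n : ℤ))
    (h : ⌊16 * Int.fract ((k1 : ℝ) * a / n)⌋ = ⌊16 * Int.fract ((k2 : ℝ) * a / n)⌋) :
    ∃ i : ℤ, 0 < |((k2 - k1 : ℕ) : ℝ) * (2 * Real.pi * a / n) - i * (2 * Real.pi)| ∧
      |((k2 - k1 : ℕ) : ℝ) * (2 * Real.pi * a / n) - i * (2 * Real.pi)| ≤ 2 / 5 := by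
  have hn : 0 < n := lt_of_le_of_lt (Nat.zero_le _) hk2
  have hnR : (0 : ℝ) < n := by exact_mod_cast hn
  set x : ℝ := (k1 : ℝ) * a / n with hx
  set y : ℝ := (k2 : ℝ) * a / n with hy
  refine ⟨⌊y⌋ - ⌊x⌋, ?_⟩
  have hcast : ((k2 - k1 : ℕ) : ℝ) = (k2 : ℝ) - k1 := by
    rw [Nat.cast_sub hk.le]
  have hval : ((k2 - k1 : ℕ) : ℝ) * (2 * Real.pi * a / n) - ((⌊y⌋ - ⌊x⌋ : ℤ) : ℝ) * (2 * Real.pi) =
      2 * Real.pi * (Int.fract y - Int.fract x) := by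
    have h1 : Int.fract y = y - ⌊y⌋ := rfl
    have h2 : Int.fract x = x - ⌊x⌋ := rfl
    rw [h1, h2, hcast, hx, hy]
    push_cast
    field_simp
    ring
  rw [hval]
  have hpi := Real.pi_pos
  have hlt : |Int.fract y - Int.fract x| < 1 / 16 := by
    have := Int.abs_sub_lt_one_of_floor_eq_floor h
    rw [← mul_sub, abs_mul, abs_sub_comm] at this
    have h16 : |(16 : ℝ)| = 16 := by norm_num
    rw [h16] at this
    linarith
  have hne : Int.fract y - Int.fract x ≠ 0 := by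
    intro h0
    have hz : ((k2 - k1 : ℕ) : ℝ) * a = ((⌊y⌋ - ⌊x⌋ : ℤ) : ℝ) * n := by
      have h1 : Int.fract y = y - ⌊y⌋ := rfl
      have h2 : Int.fract x = x - ⌊x⌋ := rfl
      have h3 : y - x = ((⌊y⌋ - ⌊x⌋ : ℤ) : ℝ) := by
        push_cast
        linarith
      have h4 : y - x = ((k2 - k1 : ℕ) : ℝ) * a / n := by
        rw [hx, hy, hcast]
        ring
      rw [h4, div_eq_iff hnR.ne'] at h3
      exact h3
    have hz' : ((k2 - k1 : ℕ) : ℤ) * a = (⌊y⌋ - ⌊x⌋ : ℤ) * n := by exact_mod_cast hz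
    have hdvd : (n : ℤ) ∣ ((k2 - k1 : ℕ) : ℤ) * a := ⟨⌊y⌋ - ⌊x⌋, by rw [hz', mul_comm]⟩
    have hdvd2 : (n : ℤ) ∣ ((k2 - k1 : ℕ) : ℤ) := (ha.symm).dvd_of_dvd_mul_right hdvd
    have hdvd3 : n ∣ k2 - k1 := by exact_mod_cast hdvd2
    have := Nat.le_of_dvd (by omega) hdvd3
    omega
  constructor
  · exact abs_pos.mpr (mul_ne_zero (by positivity) hne)
  · rw [abs_mul, abs_of_pos (by positivity : (0 : ℝ) < 2 * Real.pi)]
    have hp : Real.pi < 3.15 := Real.pi_lt_d2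
    have h0 : 0 ≤ |Int.fract y - Int.fract x| := abs_nonneg _
    nlinarith

theorem ydi : YdiStatement := by
  intro n a b hn ha hb
  have hn0 : 0 < n := by omega
  let f : ℕ → ℤ × ℤ := fun k =>
    (⌊16 * Int.fract ((k : ℝ) * a / n)⌋, ⌊16 * Int.fract ((k : ℝ) * b / n)⌋)
  have hmaps : ∀ k ∈ Finset.range n, f k ∈ (Finset.Ico (0 : ℤ) 16 ×ˢ Finset.Ico (0 : ℤ) 16) := by
    intro k _
    have key : ∀ z : ℝ, ⌊16 * Int.fract z⌋ ∈ Finset.Ico (0 : ℤ) 16 := by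
      intro z
      have h1 := Int.fract_nonneg z
      have h2 := Int.fract_lt_one z
      rw [Finset.mem_Ico]
      constructor
      · exact Int.floor_nonneg.mpr (by linarith)
      · rw [Int.floor_lt]
        push_cast
        linarith
    rw [Finset.mem_product]
    exact ⟨key _, key _⟩
  have hcard : (Finset.Ico (0 : ℤ) 16 ×ˢ Finset.Ico (0 : ℤ) 16).card < (Finset.range n).card := by
    rw [Finset.card_product, Finset.card_range]
    simp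
    omega
  obtain ⟨x, hx, y, hy, hxy, hf⟩ := Finset.exists_ne_map_eq_of_card_lt_of_maps_to hcard hmaps
  rw [Finset.mem_range] at hx hy
  have main : ∀ k1 k2 : ℕ, k1 < k2 → k2 < n → f k1 = f k2 →
      ∃ (k : ℕ) (i j : ℤ), 0 < |k * (2 * Real.pi * a / n) - i * (2 * Real.pi)| ∧
      |k * (2 * Real.pi * a / n) - i * (2 * Real.pi)| ≤ 2 / 5 ∧
      0 < |k * (2 * Real.pi * b / n) - j * (2 * Real.pi)| ∧
      |k * (2 * Real.pi * b / n) - j * (2 * Real.pi)| ≤ 2 / 5 := by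
    intro k1 k2 h12 h2 hff
    have e1 : ⌊16 * Int.fract ((k1 : ℝ) * a / n)⌋ = ⌊16 * Int.fract ((k2 : ℝ) * a / n)⌋ :=
      congrArg Prod.fst hff
    have e2 : ⌊16 * Int.fract ((k1 : ℝ) * b / n)⌋ = ⌊16 * Int.fract ((k2 : ℝ) * b / n)⌋ :=
      congrArg Prod.snd hff
    obtain ⟨i, hi1, hi2⟩ := ydi_one n a k1 k2 h12 h2 ha e1
    obtain ⟨j, hj1, hj2⟩ := ydi_one n b k1 k2 h12 h2 hb e2
    exact ⟨k2 - k1, i, j, hi1, hi2, hj1, hj2⟩
  rcases lt_or_gt_of_ne hxy with h | h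
  · exact main x y h hy hf
  · exact main y x h hx hf.symm

end Pool.Agent.ZRT.H46
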